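import Pool.Agent.NPX.Stmts
import Pool.Agent.Helper18_LSG.AsmB

/-!
# Squad NPX (MP_005a41_gt), row FNN: the theorem
-/

set_option autoImplicit false

open MeasureTheory Set Topology Pointwise

namespace Pool.Agent.NPX.H42

open Pool.Agent.LSG

/-- `X ⊕ univ` is homeomorphic to `X × Fin 2` -/
theorem hom2 (X : Type) [TopologicalSpace X] : Nonempty ((X ⊕ (Set.univ : Set X)) ≃ₜ (X × Fin 2)) := by
  have e1 : X × Fin 2 ≃ₜ X × (Fin 1 ⊕ Fin 1) :=
    Homeomorph.prodCongr (Homeomorph.refl X)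
      ((finSumFinEquiv (m := 1) (n := 1)).symm.toHomeomorphOfDiscrete)
  have e2 : X × (Fin 1 ⊕ Fin 1) ≃ₜ (X × Fin 1) ⊕ (X × Fin 1) := Homeomorph.prodSumDistrib
  have e3 : (X × Fin 1) ⊕ (X × Fin 1) ≃ₜ X ⊕ (Set.univ : Set X) :=
    Homeomorph.sumCongr (Homeomorph.prodUnique X (Fin 1))
      ((Homeomorph.prodUnique X (Fin 1)).trans (Homeomorph.Set.univ X).symm)
  exact ⟨((e1.trans e2).trans e3).symm⟩

/-- row FNN -/
theorem fnn (h1 : CnnStmt) (h2 : ManStmt) (h3 : DnnStmt) : FnnStmt := by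
  intro K _ _ _ _ _ _
  constructor
  · intro hK
    let _ : MeasurableSpace K := borel K
    have _ : BorelSpace K := ⟨rfl⟩
    obtain ⟨G, hBig, hD⟩ := h1 K
    refine ⟨G, hD, fun hS => ?_⟩
    have hemb : LEmb (Set.univ : Set G) :=
      (Pool.Agent.LSG.H21.bri.2 G Set.univ).mpr (Pool.Agent.LSG.H18.cex.2 G Set.univ isClopen_univ)
    have hL : LEq G (G ⊕ (Set.univ : Set G)) := hS Set.univ hemb
    obtain ⟨a1⟩ := (Pool.Agent.LSG.H21.bri.1 G (G ⊕ (Set.univ : Set G))).mp hL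
    obtain ⟨a2⟩ := Pool.Agent.LSG.H99.cpe.1 (G × Fin 1) G ⟨Homeomorph.prodUnique G (Fin 1)⟩
    obtain ⟨a3⟩ := Pool.Agent.LSG.H99.cpe.1 (G ⊕ (Set.univ : Set G)) (G × Fin 2) (hom2 G)
    have hL2 : LEq (G × Fin 1) (G × Fin 2) :=
      (Pool.Agent.LSG.H21.bri.1 _ _).mpr ⟨(a2.trans a1).trans a3⟩
    have h4 := h2 K G hBig 1 2 hL2
    omega
  · rintro ⟨G, hD, hS⟩
    by_contra hK
    have hU := h3 K G hD hK
    have _ : TopologicalSpace.MetrizableSpace G :=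
      (Topology.IsEmbedding.subtypeVal (p := fun x : K => x ∈ G)).metrizableSpace
    exact hS (Pool.Agent.LSG.H18.ab2_ G (fun a b => mul_comm a b) hU).2

end Pool.Agent.NPX.H42
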